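import Pool.Agent.L7h15.OA.End
import Pool.Agent.L7h65.OK.Lf
import Pool.Agent.L7h10.BO.Bf
import Pool.Agent.L7h10.BKT.Sel
import Pool.Agent.L7h10.BKT.Cx

/-!
# The Bloch–Kato conjecture for the twists of Bianchi newforms by characters of `l`-power order, `l` an odd prime

`K` is an imaginary quadratic field of class number one and `E : y² = x³ + a x + b` an elliptic curve over `K`
(without complex multiplication in general) which belongs to a Bianchi newform `f` of weight two.  Let `l` be an
odd prime such that the `l`-Selmer group of `E/K` is trivial and `Φ(0) ∉ l Λ`, where `Φ(0)` is the value of the primitive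
`Φ` of the harmonic differential of `f` at the cusp `0`, and `Λ ≅ ℤ` is the group of the values of `Φ` at the cusps
`x/m`, `m` prime to the level.  (If `L(E/K, 1) ≠ 0`, then `Φ(0) ≠ 0`, and the second condition holds for all but
finitely many `l`.)  A place `v ∤ 6 l (4a³ + 27b²)` of `K` is admissible if the number of the points of `E` over the
residue field of `v` is prime to `l`.

Theorem.

(a) For every character `χ` of `K` of `l`-power order whose conductor is a product of different admissible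
places, `L(f ⊗ χ, s)` is entire and not zero at the centre `s = 1`.

(b) Let `F/K` be a Galois extension of `l`-power degree (abelian or not), unramified outside of the admissible
places, in which the places `v ∣ 6 l (4a³ + 27b²)` split completely.  Then `E(F)` is finite of order prime to `l`,
and for every lattice `M = ℤ^g` with an action of `Gal(F/K)` the Bloch–Kato Selmer group `H¹_f(K, V_l E ⊗ M)` is zero.

If `f^c = f`, for example if `E` is defined over `ℚ`, and `χ^c = χ⁻¹`, that is, if `χ` is a ring class character, then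
`π = f ⊗ χ` (with `L(π, s) = L(f ⊗ χ, s + 1)`) is conjugate self-dual of motivic weight `-1`: `π^∨ = π^c |·|⁻¹`.  Its
`l`-adic realization `V_l E ⊗ χ` is a summand of `V_l E ⊗ M ⊗ ℚ̄_l` for the lattice `M = ℤ[χ]` on which the Galois
group acts by `χ`.  So for the `χ` with `χ(v) = 1` for all `v ∣ 6 l (4a³ + 27b²)` both sides of the formula of Bloch and
Kato are zero for `π` and `p = l`.  (`BianchiTwoPowerTwists` is the case `p = 2`.)

`H¹_f(K, V_l E ⊗ M)`, `M = ℤ^g`, is the group of the classes of the continuous cocycles of the absolute Galois group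
of `K` with values in `V_l(E)^g`, with the action twisted by that of `M`, whose restriction to the completion at every
finite place of `K` is in the image of the Kummer map of the abelian variety `A = E ⊗ M` (`V_l A = V_l E ⊗ M`); this is
the condition of Bloch and Kato for an abelian variety.

The proof.  (a) The central values are not zero by congruences modulo the primes above `l`
(`Pool.Agent.L7h15.OA.chr_ne`, project OK of helper15).  (b) If the `l`-Selmer group of `E/F` were not trivial, the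
`l`-group `Gal(F/K)` would fix a class in it which is not zero, and as `E(F)` has no point of order `l`, this class would
be the restriction of a class over `K`.  New here: it is locally trivial at an admissible place `v`, for every
(nonabelian) `F`.  Its values on the inertia group form a subgroup `V` of `E[l]` on which the absolute Galois group
of the completion of `F` acts trivially; so the Frobenius automorphism acts on `V` as an element of `l`-power order, and if
`V ≠ 0` it fixes an element of `V` which is not zero, a point of order `l` over the residue field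
(`Pool.Agent.L7h10.BO.ine_zero`).  By the theorem of Lang the class is locally trivial at `v`.  The other local conditions
and the passage from `F` to `K` are as over abelian `F` (helper15, helper60, helper65) and as for `p = 2`
(`Pool.Agent.L7h10.BKT.sel_zero`).
-/

set_option autoImplicit false

open NumberField IsDedekindDomain Matrix WeierstrassCurve Filter Topology
open scoped TensorProduct

namespace Pool.Agent.Results.MP_7c08ba_nt.BianchiOddPrimeTwists

open Pool.Agent.TH841.SH.D (Gal)
open Pool.Agent.L7h10.BKT (IsSelT IsCobT)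

/-- `K` is an imaginary quadratic field, `σ` is one of its two embeddings in `ℂ`, and `δ` generates the
different of `K`: an `x ∈ K` is in `𝓞` if and only if `Tr(x y / δ) ∈ ℤ` for all `y ∈ 𝓞`. -/
structure IsFieldData (K : Type) [Field K] [NumberField K] (σ : K →+* ℂ) (δ : K) : Prop where
  quadratic : Module.finrank ℚ K = 2
  imaginary : ∃ x, (starRingEnd ℂ) (σ x) ≠ σ x
  different : ∀ x : K, (∃ a : 𝓞 K, (a : K) = x) ↔
    ∀ y : 𝓞 K, ∃ m : ℤ, Algebra.trace ℚ K (x * y / δ) = m

/-- `h(y) = ∫_0^∞ exp(-1/v - y v) dv = 2 y^(-1/2) K₁(2 √y)`, with the Bessel function `K₁`. -/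
noncomputable def bessel (y : ℝ) : ℝ := ∫ v in Set.Ioi (0 : ℝ), Real.exp (-(1 / v) - y * v)

/-- The additive character `e(z) = exp(2πi (z/δ + conj (z/δ)))` of `ℂ`, trivial on `𝓞`. -/
noncomputable def addChar (δ z : ℂ) : ℂ :=
  Complex.exp (2 * Real.pi * Complex.I * (z / δ + (starRingEnd ℂ) (z / δ)))

/-- The denominator `|c z + d|² + |c|² t²` of the action of the matrix `(a, b; c, d)` on the hyperbolic
space `{(z, t) : z ∈ ℂ, t > 0}`. -/
noncomputable def den (c d z : ℂ) (t : ℝ) : ℝ := ‖c * z + d‖ ^ 2 + ‖c‖ ^ 2 * t ^ 2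

/-- The first coordinate `((a z + b) conj (c z + d) + a conj(c) t²) / (|c z + d|² + |c|² t²)` of the image
of `(z, t)` under the matrix `(a, b; c, d)`. -/
noncomputable def actZ (a b c d z : ℂ) (t : ℝ) : ℂ :=
  ((a * z + b) * (starRingEnd ℂ) (c * z + d) + a * (starRingEnd ℂ) c * (t : ℂ) ^ 2) /
    (den c d z t : ℂ)

/-- The second coordinate, for a matrix of determinant one; in general it is `|ad - bc|` times this. -/
noncomputable def actT (c d z : ℂ) (t : ℝ) : ℝ := t / den c d z t

section field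
variable {K : Type} [Field K] [NumberField K]

/-- The function `Φ(z, t) = ∑_{x ∈ 𝓞} c((x)) t² h(N(x) (2πt/|δ|)²) e(x z)
  = (|δ|/π) ∑_{x ≠ 0} (c((x))/|x|) t K₁(4π|x|t/|δ|) e(x z)` on the hyperbolic space, with the coefficients `c`.
Up to a constant factor it is the primitive, zero at the cusp `∞`, of the harmonic differential of the
form of weight two with the Fourier coefficients `c`: its derivative by `t` is
`-4 ∑_{x ≠ 0} c((x)) t K₀(4π|x|t/|δ|) e(x z)`. -/
noncomputable def primitive (σ : K →+* ℂ) (δ : K) (c : Ideal (𝓞 K) → ℂ) (z : ℂ) (t : ℝ) : ℂ :=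
  ∑' x : 𝓞 K, c (Ideal.span {x}) * ((t ^ 2 * bessel (Ideal.absNorm (Ideal.span {x}) *
    (2 * Real.pi * t / ‖σ δ‖) ^ 2) : ℝ) : ℂ) * addChar (σ δ) (σ x * z)

/-- The group `Λ` generated by the values of the primitive `Φ` at the cusps `x/m`, `m ≠ 0` prime to the level (that is,
by the limits of `Φ(x/m, t)` for `t → 0`). -/
def Lam (σ : K →+* ℂ) (δ : K) (n : 𝓞 K) (c : Ideal (𝓞 K) → ℂ) : AddSubgroup ℂ :=
  AddSubgroup.closure {z | ∃ x m : 𝓞 K, m ≠ 0 ∧ IsCoprime m n ∧
    Tendsto (fun t => primitive σ δ c (σ x / σ m) t) (𝓝[>] 0) (𝓝 z)}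

/-- The numbers `c(I)` are the Hecke eigenvalues of a Bianchi newform `f` of weight two, level `(n)` and
trivial character over `K`, with rational eigenvalues: they satisfy `c(𝓞) = 1`, the (trivial) bound `c(I) = O(N(I))`
and the Hecke relations `c(v I) = c(v) c(I)` for `v ∤ I`, `c(v² I) = c(v) c(v I) - N(v) c(I)` for the primes `v ∤ n`, and
`c(v I) = c(v) c(I)` for `v ∣ n`; the differential `dΦ` of the function `Φ` with the coefficients `c` is
invariant under `Γ₀(n)`, that is, `Φ(γ P) - Φ(P)` is a constant for every `γ ∈ Γ₀(n)`; `dΦ` is an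
eigenform, with the eigenvalue `±1`, of the Fricke involution `W = (0, -1; n, 0)`; and the group `Λ` of the values of `Φ` at
cusps is cyclic (this is so for rational eigenvalues, by multiplicity one and the theorem of Manin, Drinfeld and
Kurčanov: the quotient of `H₁(Γ₀(n), cusps; ℤ)` which belongs to `f` has rank one). -/
structure IsNewform (σ : K →+* ℂ) (δ : K) (n : 𝓞 K) (c : Ideal (𝓞 K) → ℂ) : Prop where
  level : n ≠ 0
  zero : c ⊥ = 0
  one : c ⊤ = 1
  bound : ∃ C : ℝ, ∀ I, ‖c I‖ ≤ C * Ideal.absNorm I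
  good : ∀ v : HeightOneSpectrum (𝓞 K), n ∉ v.asIdeal → ∀ I,
    (¬ v.asIdeal ∣ I → c (v.asIdeal * I) = c v.asIdeal * c I) ∧
    c (v.asIdeal * (v.asIdeal * I)) = c v.asIdeal * c (v.asIdeal * I) -
      Ideal.absNorm v.asIdeal * c I
  bad : ∀ v : HeightOneSpectrum (𝓞 K), n ∈ v.asIdeal → ∀ I,
    c (v.asIdeal * I) = c v.asIdeal * c I
  invariant : ∃ κ : SpecialLinearGroup (Fin 2) (𝓞 K) → ℂ,
    ∀ γ : SpecialLinearGroup (Fin 2) (𝓞 K), n ∣ γ.1 1 0 → ∀ (z : ℂ) (t : ℝ), 0 < t →
      primitive σ δ c (actZ (σ (γ.1 0 0)) (σ (γ.1 0 1)) (σ (γ.1 1 0)) (σ (γ.1 1 1)) z t)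
        (actT (σ (γ.1 1 0)) (σ (γ.1 1 1)) z t) = primitive σ δ c z t + κ γ
  fricke : ∃ w κ : ℂ, w * w = 1 ∧ ∀ (z : ℂ) (t : ℝ), 0 < t →
    primitive σ δ c (actZ 0 (-1) (σ n) 0 z t) (‖σ n‖ * actT (σ n) 0 z t) =
      -w * primitive σ δ c z t + κ
  cyclic : ∃ ω ∈ Lam σ δ n c, ∀ l ∈ Lam σ δ n c, ∃ j : ℤ, l = j * ω

/-- The central value is prime to `l`: `Φ(0)`, the limit of `Φ(0, t)` for `t → 0`, is not in `l Λ`. -/
def CentralValuePrimeTo (l : ℕ) (σ : K →+* ℂ) (δ : K) (n : 𝓞 K) (c : Ideal (𝓞 K) → ℂ) : Prop :=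
  ∃ z₀ : ℂ, Tendsto (fun t => primitive σ δ c 0 t) (𝓝[>] 0) (𝓝 z₀) ∧
    ∀ y ∈ Lam σ δ n c, z₀ ≠ (l : ℂ) * y

/-- The curve `E : y² = x³ + a x + b` over `K`. -/
def curve (a b : K) : WeierstrassCurve K := ⟨0, 0, 0, a, b⟩

/-- The number of the affine points of `y² = x³ + a x + b` over the residue field of `v`. -/
noncomputable def points (a b : 𝓞 K) (v : HeightOneSpectrum (𝓞 K)) : ℕ :=
  Nat.card {x : (𝓞 K ⧸ v.asIdeal) × (𝓞 K ⧸ v.asIdeal) //
    x.2 ^ 2 = x.1 ^ 3 + (Ideal.Quotient.mk v.asIdeal a) * x.1 + (Ideal.Quotient.mk v.asIdeal b)}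

/-- `f` is the newform of `E : y² = x³ + a x + b`: for `v ∤ 2(4a³ + 27b²)` (so that `E` has good reduction at `v`)
the level is prime to `v` and `c(v) = N(v) + 1 - #E(𝓞/v)`. -/
def IsNewformOf (a b n : 𝓞 K) (c : Ideal (𝓞 K) → ℂ) : Prop :=
  ∀ v : HeightOneSpectrum (𝓞 K), 2 * (4 * a ^ 3 + 27 * b ^ 2) ∉ v.asIdeal →
    n ∉ v.asIdeal ∧ c v.asIdeal = (Ideal.absNorm v.asIdeal : ℂ) - points a b v

section selmer

/-- The group `E(Ω)` of the points over an extension `Ω` of `K`. -/
abbrev Points (E : WeierstrassCurve K) (Ω : Type) [Field Ω] [Algebra K Ω] : Type :=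
  (E.baseChange Ω).toAffine.Point

open scoped Classical in
/-- The homomorphism `E(Ω) → E(Ω')` given by a `K`-homomorphism `Ω → Ω'`, for example by an element of a Galois
group. -/
noncomputable def onPoints (E : WeierstrassCurve K) {Ω Ω' : Type} [Field Ω] [Field Ω'] [Algebra K Ω]
    [Algebra K Ω'] (φ : Ω →ₐ[K] Ω') : Points E Ω →+ Points E Ω' :=
  Affine.Point.map (W' := E.toAffine) φ

open scoped Classical in
/-- The `l`-Selmer group of `E/K` is trivial: every continuous cocycle `f` of the absolute Galois group of `K` with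
values in the points of order `l` whose restriction at every finite place `v` is the coboundary of a point over
an algebraic closure of `K_v`, is the coboundary of a point of order `l`.  (`K` has no real places.) -/
def TrivialSelmer (l : ℕ) (E : WeierstrassCurve K) : Prop :=
  ∀ f : (AlgebraicClosure K ≃ₐ[K] AlgebraicClosure K) → Points E (AlgebraicClosure K),
    IsLocallyConstant f → (∀ s t, f (s * t) = f s + onPoints E s.toAlgHom (f t)) →
    (∀ s, l • f s = 0) →
    (∀ v : HeightOneSpectrum (𝓞 K),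
      ∃ (ι : AlgebraicClosure K →ₐ[K] AlgebraicClosure (v.adicCompletion K))
        (P : Points E (AlgebraicClosure (v.adicCompletion K))),
        ∀ (t : AlgebraicClosure (v.adicCompletion K) ≃ₐ[v.adicCompletion K]
          AlgebraicClosure (v.adicCompletion K)) (s : AlgebraicClosure K ≃ₐ[K] AlgebraicClosure K),
          (∀ x, t (ι x) = ι (s x)) →
            onPoints E ι (f s) = onPoints E (t.toAlgHom.restrictScalars K) P - P) →
    ∃ T : Points E (AlgebraicClosure K), l • T = 0 ∧ ∀ s, f s = onPoints E s.toAlgHom T - T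

end selmer

/-- The admissible places: `v ∤ 6 l (4a³ + 27b²)`, and the number of the points of `E` over `𝓞/v` (with the
point at infinity) is prime to `l`. -/
def Admissible (l : ℕ) (a b : 𝓞 K) (v : HeightOneSpectrum (𝓞 K)) : Prop :=
  6 * (l : 𝓞 K) * (4 * a ^ 3 + 27 * b ^ 2) ∉ v.asIdeal ∧
    ¬ l ∣ Nat.card {x : (𝓞 K ⧸ v.asIdeal) × (𝓞 K ⧸ v.asIdeal) //
      x.2 ^ 2 = x.1 ^ 3 + Ideal.Quotient.mk v.asIdeal a * x.1 + Ideal.Quotient.mk v.asIdeal b} + 1

/-- `χ` is a character of `K` of `l`-power order and of conductor `∏_{v ∈ T} v`, as a function on `𝓞` (`K` has class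
number one): a primitive character modulo the product of the `v ∈ T`, trivial on the units, and zero on the `x` which
are not prime to the conductor. -/
structure IsCharacter (l : ℕ) (T : Finset (HeightOneSpectrum (𝓞 K))) (χ : 𝓞 K → ℂ) : Prop where
  one : χ 1 = 1
  mul : ∀ x y, χ (x * y) = χ x * χ y
  zero : ∀ x, χ x = 0 ↔ ∃ v ∈ T, x ∈ v.asIdeal
  periodic : ∀ x y, (∀ v ∈ T, x - y ∈ v.asIdeal) → χ x = χ y
  units : ∀ u, IsUnit u → χ u = 1
  primitive : ∀ v ∈ T, ∃ x, (∀ v' ∈ T, v' ≠ v → x - 1 ∈ v'.asIdeal) ∧ χ x ≠ 0 ∧ χ x ≠ 1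
  order : ∃ k : ℕ, ∀ x, χ x ≠ 0 → χ x ^ l ^ k = 1

section extension

variable (F : Type) [Field F] [NumberField F] [Algebra K F]

/-- The places `u` of `F` above `v`. -/
def Above (v : HeightOneSpectrum (𝓞 K)) : Type :=
  {u : HeightOneSpectrum (𝓞 F) // u.asIdeal.comap (algebraMap (𝓞 K) (𝓞 F)) = v.asIdeal}

/-- `F/K` is a finite Galois extension of `l`-power degree, unramified outside of the admissible places of `K`, and the
places `v ∣ 6 l (4a³ + 27b²)` split completely in `F` (there is an embedding of `F` in `K_v`). -/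
structure IsLExtension (l : ℕ) (a b : 𝓞 K) : Prop where
  galois : IsGalois K F
  degree : ∃ k : ℕ, Module.finrank K F = l ^ k
  split : ∀ v : HeightOneSpectrum (𝓞 K), 6 * (l : 𝓞 K) * (4 * a ^ 3 + 27 * b ^ 2) ∈ v.asIdeal →
    Nonempty (F →ₐ[K] v.adicCompletion K)
  unramified : ∀ v : HeightOneSpectrum (𝓞 K), 6 * (l : 𝓞 K) * (4 * a ^ 3 + 27 * b ^ 2) ∉ v.asIdeal →
    ¬ Admissible l a b v → ∀ u : Above F v, ∀ x : K,
      u.1.valuation F (algebraMap K F x) = v.valuation K x

end extension

open Classical in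
/-- `L` is an entire function, and for `Re s > 2` it is `L(f ⊗ χ, s)`, the product over all the places `v` of `K` of
the factors `(1 - c(v) χ(v) N(v)^(-s) + χ(v)² N(v)^(1 - 2 s))⁻¹`, without the last term if `v ∣ n`. -/
def IsLFunction [IsPrincipalIdealRing (𝓞 K)] (n : 𝓞 K) (c : Ideal (𝓞 K) → ℂ) (χ : 𝓞 K → ℂ)
    (L : ℂ → ℂ) : Prop :=
  Differentiable ℂ L ∧ ∀ s : ℂ, 2 < s.re →
    HasProd (fun v : HeightOneSpectrum (𝓞 K) =>
      (1 - c v.asIdeal * χ (Submodule.IsPrincipal.generator v.asIdeal) *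
          (Ideal.absNorm v.asIdeal : ℂ) ^ (-s) +
        (if n ∈ v.asIdeal then 0 else χ (Submodule.IsPrincipal.generator v.asIdeal) ^ 2 *
          (Ideal.absNorm v.asIdeal : ℂ) ^ (1 - 2 * s)))⁻¹) (L s)

/-- The Bloch–Kato Selmer group `H¹_f(K, V_l E ⊗ M)` is zero, where `M = ℤ^g` with the action `ρ` of the absolute
Galois group of `K`: every continuous cocycle which satisfies the local conditions is a coboundary. -/
def SelmerZero (l : ℕ) (W : WeierstrassCurve K) {g : ℕ} (ρ : Gal K →* GL (Fin g) ℤ) : Prop :=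
  ∀ z, IsSelT l W ρ z → IsCobT l W ρ z

end field

open scoped Classical in
/-- **Theorem.** Let `K` be an imaginary quadratic field of class number one, `E : y² = x³ + a x + b` an elliptic
curve over `K` with the Bianchi newform `f` of level `(n)`, and let `l` be an odd prime such that the `l`-Selmer group
of `E/K` is trivial and the central value of `f` is prime to `l`.  Then for all characters `χ` of `l`-power order of
conductors which are products of different admissible places `L(f ⊗ χ, s)` is entire and not zero at `s = 1`.  For all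
the Galois extensions `F/K` of `l`-power degree, unramified outside of the admissible places, in which the places
`v ∣ 6 l (4a³ + 27b²)` of `K` split completely, `E(F)` is finite of order prime to `l`, and for every lattice `M` with
an action of `Gal(F/K)` (that is, an action of the absolute Galois group that is trivial on the automorphisms which fix
the image of `F` under an embedding `j` in the algebraic closure) the Bloch–Kato Selmer group
`H¹_f(K, V_l E ⊗ M)` is zero. -/
theorem result (K : Type) [Field K] [NumberField K] [IsPrincipalIdealRing (𝓞 K)] (σ : K →+* ℂ)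
    (δ : K) (hK : IsFieldData K σ δ) (a b n : 𝓞 K) (hΔ : 4 * a ^ 3 + 27 * b ^ 2 ≠ 0)
    (c : Ideal (𝓞 K) → ℂ) (hf : IsNewform σ δ n c) (hE : IsNewformOf a b n c)
    (l : ℕ) (hl : l.Prime) (hl2 : l ≠ 2) (hlc : CentralValuePrimeTo l σ δ n c)
    (hS : TrivialSelmer l (curve (a : K) (b : K))) :
    (∀ (T : Finset (HeightOneSpectrum (𝓞 K))) (χ : 𝓞 K → ℂ), IsCharacter l T χ →
      (∀ v ∈ T, Admissible l a b v) → ∃ Lf : ℂ → ℂ, IsLFunction n c χ Lf ∧ Lf 1 ≠ 0) ∧
    ∀ (F : Type) [Field F] [NumberField F] [Algebra K F], IsLExtension F l a b →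
      (Finite (Points (curve (a : K) (b : K)) F) ∧ ¬ l ∣ Nat.card (Points (curve (a : K) (b : K)) F)) ∧
      ∀ (j : F →ₐ[K] AlgebraicClosure K) (g : ℕ) (ρ : Gal K →* GL (Fin g) ℤ),
        (∀ s : Gal K, (∀ x, s (j x) = j x) → ρ s = 1) → SelmerZero l (curve (a : K) (b : K)) ρ := by
  classical
  have h : K4H55.BI.IQ K σ δ := ⟨hK.quadratic, hK.imaginary, inferInstance, hK.different⟩
  have hf' : K4H55.BI.BF σ δ n c := ⟨hf.level, hf.zero, hf.one, hf.bound, hf.good, hf.bad,
    hf.invariant, hf.fricke⟩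
  have hquad : Algebra.IsQuadraticExtension ℚ K := ⟨hK.quadratic⟩
  have hGQ : IsGalois ℚ K := inferInstance
  have hmul : ∀ v : HeightOneSpectrum (𝓞 K), 2 * (4 * a ^ 3 + 27 * b ^ 2) ∈ v.asIdeal →
      6 * (l : 𝓞 K) * (4 * a ^ 3 + 27 * b ^ 2) ∈ v.asIdeal := by
    intro v hv
    have e : 6 * (l : 𝓞 K) * (4 * a ^ 3 + 27 * b ^ 2) =
        (3 * (l : 𝓞 K)) * (2 * (4 * a ^ 3 + 27 * b ^ 2)) := by ring
    rw [e]
    exact v.asIdeal.mul_mem_left _ hv
  refine ⟨fun T χ hχ hT => ?_, fun F _ _ _ hF => ?_⟩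
  · obtain ⟨ω, hω', hω⟩ := hf.cyclic
    obtain ⟨z, hz, hzo⟩ := hlc
    have hch : L7h15.OA.CHl l T χ :=
      ⟨hχ.one, hχ.mul, hχ.zero, hχ.periodic, hχ.units, hχ.primitive, hχ.order⟩
    have hT' : ∀ v ∈ T, (2 : 𝓞 K) ∉ v.asIdeal ∧ n ∉ v.asIdeal ∧
        ∃ m : ℤ, c v.asIdeal = m ∧ ¬ (l : ℤ) ∣ m - 2 := by
      intro v hv
      obtain ⟨h1, h2⟩ := hT v hv
      have h1' : 2 * (4 * a ^ 3 + 27 * b ^ 2) ∉ v.asIdeal := fun h3 => h1 (hmul v h3)
      have h3 : (2 : 𝓞 K) ∉ v.asIdeal := fun h2 => h1' (v.asIdeal.mul_mem_right _ h2)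
      obtain ⟨h4, h5⟩ := hE v h1'
      refine ⟨h3, h4, (Ideal.absNorm v.asIdeal : ℤ) - points a b v, ?_, fun h7 => h2 ?_⟩
      · rw [h5]
        push_cast
        ring
      · have h6 := L7h15.OA.ch_dvd hl hch hv
        have h8 : (l : ℤ) ∣ ((points a b v + 1 : ℕ) : ℤ) := by
          have h9 := dvd_sub h6 h7
          have e : ((Ideal.absNorm v.asIdeal : ℤ) - 1) - ((Ideal.absNorm v.asIdeal : ℤ) -
              points a b v - 2) = ((points a b v + 1 : ℕ) : ℤ) := by
            push_cast
            ring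
          rwa [e] at h9
        exact_mod_cast h8
    obtain ⟨G, g1, g2, g3⟩ := L7h15.OA.chr_ne h hf' hl hch hT' hz hω hω' hzo
    exact ⟨G, ⟨g1, g2⟩, g3⟩
  · have hG := hF.galois
    obtain ⟨k, hk⟩ := hF.degree
    have hS' : L7h15.OK.SelTriv l (L7h15.OK.EV (a : K) (b : K)) K := by
      intro f h1 h2 h3
      exact hS f h1.lc h1.mul h2 h3
    have hSF := L7h10.BO.sel_up_l L7h65.OK.s_LF hl hl2 hΔ hS' (F := F) hk hF.split
      (fun v hv => by
        by_cases h3 : Admissible l a b v
        · exact Or.inr h3.2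
        · exact Or.inl fun u hu x => hF.unramified v hv h3 ⟨u, hu⟩ x)
    obtain ⟨h1, h2, h3⟩ := L7h10.BO.h1f_k hl hΔ hSF
    refine ⟨⟨h1, h2⟩, fun j g ρ hρ z hz => ?_⟩
    refine L7h10.BKT.sel_zero (V := (L7h15.OK.EV (a : K) (b : K)).baseChange F) ?_ h1 h3
      (L7h10.BKT.complex_up hK.quadratic σ hK.imaginary) j hρ hz
    refine ⟨one_ne_zero, ?_, ?_, ?_, ?_, ?_⟩ <;> simp [curve, L7h15.OK.EV]

end Pool.Agent.Results.MP_7c08ba_nt.BianchiOddPrimeTwists
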