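import Pool.Agent.K4H55.CX.Up
import Pool.Agent.K4H55.CX.AbL
import Pool.Agent.L7h10.BKT.Sel
import Pool.Agent.L7h10.BKT.Cx

/-!
# The Bloch–Kato conjecture for the twists of Bianchi newforms by characters of 2-power order

`K` is an imaginary quadratic field of class number one and `E : y² = x³ + a x + b` an elliptic curve over `K`
(without complex multiplication in general) which belongs to a Bianchi newform `f` of weight two.  Suppose that
`E(K)[2] = 0`, that the `2`-Selmer group of `E/K` is trivial, and that the central value of `E/K` is odd: the value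
`Φ(0)` of the primitive `Φ` of the harmonic differential of `f` at the cusp `0` is not in `2 w Λ`, where `Λ ≅ ℤ` is the
group of the values of `Φ` at the cusps `x/m`, `m` prime to the level, and `w = #{u ∈ 𝓞 : u⁴ = 1}`.  A place
`v ∤ 2(4a³ + 27b²)` of `K` is admissible if `x³ + a x + b` has no root modulo `v`.

Theorem.

(a) For every character `χ` of `K` of `2`-power order whose conductor is a product of different admissible
places, `L(f ⊗ χ, s)` is entire and not zero at the centre `s = 1`.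

(b) Let `F/K` be a Galois extension of `2`-power degree (abelian or not), unramified outside of the admissible
places, in which the places `v ∣ 2(4a³ + 27b²)` split completely.  For every lattice `M = ℤ^g` with an action of
`Gal(F/K)` the Bloch–Kato Selmer group `H¹_f(K, V_2 E ⊗ M)` is zero.

If `f^c = f`, for example if `E` is defined over `ℚ`, and `χ^c = χ⁻¹`, that is, if `χ` is a ring class character, then
`π = f ⊗ χ` (with `L(π, s) = L(f ⊗ χ, s + 1)`) is conjugate self-dual of motivic weight `-1`: `π^∨ = π^c |·|⁻¹`.  Its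
`2`-adic realization `V_2 E ⊗ χ` is a summand of `V_2 E ⊗ M ⊗ ℚ̄_2` for the lattice `M = ℤ[χ]` on which the Galois
group acts by `χ`.  So for the `χ` with `χ(v) = 1` for all `v ∣ 2(4a³ + 27b²)` both sides of the formula of Bloch and
Kato are zero for `π` and `p = 2`.

`H¹_f(K, V_2 E ⊗ M)`, `M = ℤ^g`, is the group of the classes of the continuous cocycles of the absolute Galois group
of `K` with values in `V_2(E)^g`, with the action twisted by that of `M`, whose restriction to the completion at every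
finite place of `K` is in the image of the Kummer map of the abelian variety `A = E ⊗ M` (`V_2 A = V_2 E ⊗ M`); this is
the condition of Bloch and Kato for an abelian variety.

The proof.  The values are not zero by the congruences modulo the primes above `2` of helper55
(`Pool.Agent.K4H55.CX.chr_unit`), who also proved by a descent that `E(F)` is finite and `H¹_f(F, V_2 E) = 0`
(`Pool.Agent.K4H55.CX.fin_up`).  New is the passage from `F` to `K` (`Pool.Agent.L7h10.BKT.sel_zero`): the cocycles are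
restricted to `F`, with the local conditions, where they are coboundaries, and a twisted cocycle that vanishes on the
Galois group of `F` has values in `V_2(E)^{Gal F} = 0`.
-/

set_option autoImplicit false

open NumberField IsDedekindDomain Matrix WeierstrassCurve Filter Topology
open scoped TensorProduct

namespace Pool.Agent.Results.MP_7c08ba_nt.BianchiTwoPowerTwists

open Pool.Agent.TH841.SH.D (Gal)
open Pool.Agent.L7h10.BKT (IsSelT IsCobT)

/-- `K` is an imaginary quadratic field, `σ` is one of its two embeddings in `ℂ`, and `δ` generates the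
different of `K`: an `x ∈ K` is in `𝓞` if and only if `Tr(x y / δ) ∈ ℤ` for all `y ∈ 𝓞`. -/
structure IsFieldData (K : Type) [Field K] [NumberField K] (σ : K →+* ℂ) (δ : K) : Prop where
  quadratic : Module.finrank ℚ K = 2
  imaginary : ∃ x, (starRingEnd ℂ) (σ x) ≠ σ x
  different : ∀ x : K, (∃ a : 𝓞 K, (a : K) = x) ↔
    ∀ y : 𝓞 K, ∃ m : ℤ, Algebra.trace ℚ K (x * y / δ) = m

/-- `h(y) = ∫_0^∞ exp(-1/v - y v) dv = 2 y^(-1/2) K₁(2 √y)`, with the Bessel function `K₁`. -/
noncomputable def bessel (y : ℝ) : ℝ := ∫ v in Set.Ioi (0 : ℝ), Real.exp (-(1 / v) - y * v)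

/-- The additive character `e(z) = exp(2πi (z/δ + conj (z/δ)))` of `ℂ`, trivial on `𝓞`. -/
noncomputable def addChar (δ z : ℂ) : ℂ :=
  Complex.exp (2 * Real.pi * Complex.I * (z / δ + (starRingEnd ℂ) (z / δ)))

/-- The denominator `|c z + d|² + |c|² t²` of the action of the matrix `(a, b; c, d)` on the hyperbolic
space `{(z, t) : z ∈ ℂ, t > 0}`. -/
noncomputable def den (c d z : ℂ) (t : ℝ) : ℝ := ‖c * z + d‖ ^ 2 + ‖c‖ ^ 2 * t ^ 2

/-- The first coordinate `((a z + b) conj (c z + d) + a conj(c) t²) / (|c z + d|² + |c|² t²)` of the image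
of `(z, t)` under the matrix `(a, b; c, d)`. -/
noncomputable def actZ (a b c d z : ℂ) (t : ℝ) : ℂ :=
  ((a * z + b) * (starRingEnd ℂ) (c * z + d) + a * (starRingEnd ℂ) c * (t : ℂ) ^ 2) /
    (den c d z t : ℂ)

/-- The second coordinate, for a matrix of determinant one; in general it is `|ad - bc|` times this. -/
noncomputable def actT (c d z : ℂ) (t : ℝ) : ℝ := t / den c d z t

section field
variable {K : Type} [Field K] [NumberField K]

/-- The function `Φ(z, t) = ∑_{x ∈ 𝓞} c((x)) t² h(N(x) (2πt/|δ|)²) e(x z)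
  = (|δ|/π) ∑_{x ≠ 0} (c((x))/|x|) t K₁(4π|x|t/|δ|) e(x z)` on the hyperbolic space, with the coefficients `c`.
Up to a constant factor it is the primitive, zero at the cusp `∞`, of the harmonic differential of the
form of weight two with the Fourier coefficients `c`: its derivative by `t` is
`-4 ∑_{x ≠ 0} c((x)) t K₀(4π|x|t/|δ|) e(x z)`. -/
noncomputable def primitive (σ : K →+* ℂ) (δ : K) (c : Ideal (𝓞 K) → ℂ) (z : ℂ) (t : ℝ) : ℂ :=
  ∑' x : 𝓞 K, c (Ideal.span {x}) * ((t ^ 2 * bessel (Ideal.absNorm (Ideal.span {x}) *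
    (2 * Real.pi * t / ‖σ δ‖) ^ 2) : ℝ) : ℂ) * addChar (σ δ) (σ x * z)

/-- The group `Λ` generated by the values of the primitive `Φ` at the cusps `x/m`, `m ≠ 0` prime to the level (that is,
by the limits of `Φ(x/m, t)` for `t → 0`). -/
def Lam (σ : K →+* ℂ) (δ : K) (n : 𝓞 K) (c : Ideal (𝓞 K) → ℂ) : AddSubgroup ℂ :=
  AddSubgroup.closure {z | ∃ x m : 𝓞 K, m ≠ 0 ∧ IsCoprime m n ∧
    Tendsto (fun t => primitive σ δ c (σ x / σ m) t) (𝓝[>] 0) (𝓝 z)}

/-- The numbers `c(I)` are the Hecke eigenvalues of a Bianchi newform `f` of weight two, level `(n)` and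
trivial character over `K`, with rational eigenvalues: they satisfy `c(𝓞) = 1`, the (trivial) bound `c(I) = O(N(I))`
and the Hecke relations `c(v I) = c(v) c(I)` for `v ∤ I`, `c(v² I) = c(v) c(v I) - N(v) c(I)` for the primes `v ∤ n`, and
`c(v I) = c(v) c(I)` for `v ∣ n`; the differential `dΦ` of the function `Φ` with the coefficients `c` is
invariant under `Γ₀(n)`, that is, `Φ(γ P) - Φ(P)` is a constant for every `γ ∈ Γ₀(n)`; `dΦ` is an
eigenform, with the eigenvalue `±1`, of the Fricke involution `W = (0, -1; n, 0)`; and the group `Λ` of the values of `Φ` at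
cusps is cyclic (this is so for rational eigenvalues, by multiplicity one and the theorem of Manin, Drinfeld and
Kurčanov: the quotient of `H₁(Γ₀(n), cusps; ℤ)` which belongs to `f` has rank one). -/
structure IsNewform (σ : K →+* ℂ) (δ : K) (n : 𝓞 K) (c : Ideal (𝓞 K) → ℂ) : Prop where
  level : n ≠ 0
  zero : c ⊥ = 0
  one : c ⊤ = 1
  bound : ∃ C : ℝ, ∀ I, ‖c I‖ ≤ C * Ideal.absNorm I
  good : ∀ v : HeightOneSpectrum (𝓞 K), n ∉ v.asIdeal → ∀ I,
    (¬ v.asIdeal ∣ I → c (v.asIdeal * I) = c v.asIdeal * c I) ∧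
    c (v.asIdeal * (v.asIdeal * I)) = c v.asIdeal * c (v.asIdeal * I) -
      Ideal.absNorm v.asIdeal * c I
  bad : ∀ v : HeightOneSpectrum (𝓞 K), n ∈ v.asIdeal → ∀ I,
    c (v.asIdeal * I) = c v.asIdeal * c I
  invariant : ∃ κ : SpecialLinearGroup (Fin 2) (𝓞 K) → ℂ,
    ∀ γ : SpecialLinearGroup (Fin 2) (𝓞 K), n ∣ γ.1 1 0 → ∀ (z : ℂ) (t : ℝ), 0 < t →
      primitive σ δ c (actZ (σ (γ.1 0 0)) (σ (γ.1 0 1)) (σ (γ.1 1 0)) (σ (γ.1 1 1)) z t)
        (actT (σ (γ.1 1 0)) (σ (γ.1 1 1)) z t) = primitive σ δ c z t + κ γ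
  fricke : ∃ w κ : ℂ, w * w = 1 ∧ ∀ (z : ℂ) (t : ℝ), 0 < t →
    primitive σ δ c (actZ 0 (-1) (σ n) 0 z t) (‖σ n‖ * actT (σ n) 0 z t) =
      -w * primitive σ δ c z t + κ
  cyclic : ∃ ω ∈ Lam σ δ n c, ∀ l ∈ Lam σ δ n c, ∃ j : ℤ, l = j * ω

/-- The number `w` of the `u ∈ 𝓞` with `u⁴ = 1`: it is `4` for `K = ℚ(i)` and `2` otherwise. -/
noncomputable def fourth (K : Type) [Field K] : ℕ := Nat.card {u : 𝓞 K // u ^ 4 = 1}

/-- The central value is odd: `Φ(0)`, the limit of `Φ(0, t)` for `t → 0`, is not in `2 w Λ`. -/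
def OddCentralValue (σ : K →+* ℂ) (δ : K) (n : 𝓞 K) (c : Ideal (𝓞 K) → ℂ) : Prop :=
  ∃ z₀ : ℂ, Tendsto (fun t => primitive σ δ c 0 t) (𝓝[>] 0) (𝓝 z₀) ∧
    ∀ y ∈ Lam σ δ n c, z₀ ≠ 2 * fourth K * y

/-- The number of the affine points of `y² = x³ + a x + b` over the residue field of `v`. -/
noncomputable def points (a b : 𝓞 K) (v : HeightOneSpectrum (𝓞 K)) : ℕ :=
  Nat.card {x : (𝓞 K ⧸ v.asIdeal) × (𝓞 K ⧸ v.asIdeal) //
    x.2 ^ 2 = x.1 ^ 3 + (Ideal.Quotient.mk v.asIdeal a) * x.1 + (Ideal.Quotient.mk v.asIdeal b)}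

/-- `f` is the newform of `E : y² = x³ + a x + b`: for `v ∤ 2(4a³ + 27b²)` (so that `E` has good reduction at `v`)
the level is prime to `v` and `c(v) = N(v) + 1 - #E(𝓞/v)`. -/
def IsNewformOf (a b n : 𝓞 K) (c : Ideal (𝓞 K) → ℂ) : Prop :=
  ∀ v : HeightOneSpectrum (𝓞 K), 2 * (4 * a ^ 3 + 27 * b ^ 2) ∉ v.asIdeal →
    n ∉ v.asIdeal ∧ c v.asIdeal = (Ideal.absNorm v.asIdeal : ℂ) - points a b v

section selmer
variable {L : Type} [Field L] [NumberField L] [Algebra K L]

/-- `L = K(θ)` is the cubic field of `E`: `θ³ + a θ + b = 0`, and every element of `L` is `u + v θ + w θ²` for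
unique `u, v, w ∈ K`.  So `x³ + a x + b` is irreducible over `K`, that is, `E(K)[2] = 0`. -/
structure IsCubicField (a b : 𝓞 K) (θ : L) : Prop where
  root : θ ^ 3 + algebraMap K L a * θ + algebraMap K L b = 0
  basis : ∀ β : L, ∃! t : K × K × K,
    β = algebraMap K L t.1 + algebraMap K L t.2.1 * θ + algebraMap K L t.2.2 * θ ^ 2

/-- The class of `α` in `(K_v ⊗ L)^×` modulo squares is in the group generated by the images of the points
`(x, y)`, `y ≠ 0`, of `E(K_v)` under the Kummer map `(x, y) ↦ x - θ`.  (This group is the image of `E(K_v)/2E(K_v)`, as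
the map is a homomorphism and all classes contain points with `y ≠ 0`.) -/
def LocalCondition (a b : 𝓞 K) (θ : L) (v : HeightOneSpectrum (𝓞 K)) (α : L) : Prop :=
  ∃ s : List (v.adicCompletion K),
    (∀ x ∈ s, ∃ y : v.adicCompletion K, y ≠ 0 ∧
      y ^ 2 = x ^ 3 + algebraMap K (v.adicCompletion K) a * x +
        algebraMap K (v.adicCompletion K) b) ∧
    IsSquare (((1 : v.adicCompletion K) ⊗ₜ[K] α) *
      (s.map fun x => x ⊗ₜ[K] (1 : L) - 1 ⊗ₜ[K] θ).prod)

/-- The `2`-Selmer group of `E/K` is trivial.  As `E(K)[2] = 0` and `K` has no real places, it is the group of the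
classes of `α ∈ L^×` modulo squares such that the norm of `α` is a square, `w(α)` is even for all places
`w ∤ 2(4a³ + 27b²)` of `L`, and `α` satisfies the local conditions at the places `v ∣ 2(4a³ + 27b²)` of `K`. -/
def TrivialSelmer (a b : 𝓞 K) (θ : L) : Prop :=
  ∀ α : L, α ≠ 0 → IsSquare (Algebra.norm K α) →
    (∀ w : HeightOneSpectrum (𝓞 L), algebraMap (𝓞 K) (𝓞 L) (2 * (4 * a ^ 3 + 27 * b ^ 2)) ∉
      w.asIdeal → IsSquare (w.valuation L α)) →
    (∀ v : HeightOneSpectrum (𝓞 K), 2 * (4 * a ^ 3 + 27 * b ^ 2) ∈ v.asIdeal →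
      LocalCondition a b θ v α) → IsSquare α

end selmer

/-- The admissible places: `v ∤ 2(4a³ + 27b²)`, and `x³ + a x + b` has no root modulo `v`. -/
def Admissible (a b : 𝓞 K) (v : HeightOneSpectrum (𝓞 K)) : Prop :=
  2 * (4 * a ^ 3 + 27 * b ^ 2) ∉ v.asIdeal ∧ ∀ x : 𝓞 K, x ^ 3 + a * x + b ∉ v.asIdeal

/-- `χ` is a character of `K` of `2`-power order and of conductor `∏_{v ∈ T} v`, as a function on `𝓞` (`K` has class
number one): a primitive character modulo the product of the `v ∈ T`, trivial on the units, and zero on the `x` which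
are not prime to the conductor. -/
structure IsCharacter (T : Finset (HeightOneSpectrum (𝓞 K))) (χ : 𝓞 K → ℂ) : Prop where
  one : χ 1 = 1
  mul : ∀ x y, χ (x * y) = χ x * χ y
  zero : ∀ x, χ x = 0 ↔ ∃ v ∈ T, x ∈ v.asIdeal
  periodic : ∀ x y, (∀ v ∈ T, x - y ∈ v.asIdeal) → χ x = χ y
  units : ∀ u, IsUnit u → χ u = 1
  primitive : ∀ v ∈ T, ∃ x, (∀ v' ∈ T, v' ≠ v → x - 1 ∈ v'.asIdeal) ∧ χ x ≠ 0 ∧ χ x ≠ 1
  order : ∃ k : ℕ, ∀ x, χ x ≠ 0 → χ x ^ 2 ^ k = 1

section extension

variable (F : Type) [Field F] [NumberField F] [Algebra K F]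

/-- The places `u` of `F` above `v`. -/
def Above (v : HeightOneSpectrum (𝓞 K)) : Type :=
  {u : HeightOneSpectrum (𝓞 F) // u.asIdeal.comap (algebraMap (𝓞 K) (𝓞 F)) = v.asIdeal}

/-- `F/K` is a finite Galois extension of `2`-power degree, unramified outside of the admissible places of `K`, and the
places `v ∣ 2(4a³ + 27b²)` split completely in `F` (there is an embedding of `F` in `K_v`). -/
structure IsTwoExtension (a b : 𝓞 K) : Prop where
  galois : IsGalois K F
  degree : ∃ k : ℕ, Module.finrank K F = 2 ^ k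
  split : ∀ v : HeightOneSpectrum (𝓞 K), 2 * (4 * a ^ 3 + 27 * b ^ 2) ∈ v.asIdeal →
    Nonempty (F →ₐ[K] v.adicCompletion K)
  unramified : ∀ v : HeightOneSpectrum (𝓞 K), 2 * (4 * a ^ 3 + 27 * b ^ 2) ∉ v.asIdeal →
    ¬ Admissible a b v → ∀ u : Above F v, ∀ x : K,
      u.1.valuation F (algebraMap K F x) = v.valuation K x

end extension

/-- The curve `E : y² = x³ + a x + b` over `K`. -/
def curve (a b : K) : WeierstrassCurve K := ⟨0, 0, 0, a, b⟩

open Classical in
/-- `L` is an entire function, and for `Re s > 2` it is `L(f ⊗ χ, s)`, the product over all the places `v` of `K` of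
the factors `(1 - c(v) χ(v) N(v)^(-s) + χ(v)² N(v)^(1 - 2 s))⁻¹`, without the last term if `v ∣ n`. -/
def IsLFunction [IsPrincipalIdealRing (𝓞 K)] (n : 𝓞 K) (c : Ideal (𝓞 K) → ℂ) (χ : 𝓞 K → ℂ)
    (L : ℂ → ℂ) : Prop :=
  Differentiable ℂ L ∧ ∀ s : ℂ, 2 < s.re →
    HasProd (fun v : HeightOneSpectrum (𝓞 K) =>
      (1 - c v.asIdeal * χ (Submodule.IsPrincipal.generator v.asIdeal) *
          (Ideal.absNorm v.asIdeal : ℂ) ^ (-s) +
        (if n ∈ v.asIdeal then 0 else χ (Submodule.IsPrincipal.generator v.asIdeal) ^ 2 *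
          (Ideal.absNorm v.asIdeal : ℂ) ^ (1 - 2 * s)))⁻¹) (L s)

/-- The Bloch–Kato Selmer group `H¹_f(K, V_2 E ⊗ M)` is zero, where `M = ℤ^g` with the action `ρ` of the absolute
Galois group of `K`: every continuous cocycle which satisfies the local conditions is a coboundary. -/
def SelmerZero (W : WeierstrassCurve K) {g : ℕ} (ρ : Gal K →* GL (Fin g) ℤ) : Prop :=
  ∀ z, IsSelT 2 W ρ z → IsCobT 2 W ρ z

end field

/-- **Theorem.** Let `K` be an imaginary quadratic field of class number one, `E : y² = x³ + a x + b` an elliptic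
curve over `K` with the Bianchi newform `f` of level `(n)`, and suppose that `E(K)[2] = 0`, the `2`-Selmer group of
`E/K` is trivial, and the central value of `f` is odd.  Then for all characters `χ` of `2`-power order of conductors
which are products of different admissible places `L(f ⊗ χ, s)` is entire and not zero at `s = 1`, and for all the
Galois extensions `F/K` of `2`-power degree, unramified outside of the admissible places, in which the places
`v ∣ 2(4a³ + 27b²)` of `K` split completely, and for every lattice `M` with an action of `Gal(F/K)` (that is, an action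
of the absolute Galois group that is trivial on the automorphisms which fix the image of `F` under an embedding
`j` in the algebraic closure) the Bloch–Kato Selmer group `H¹_f(K, V_2 E ⊗ M)` is zero. -/
theorem result (K : Type) [Field K] [NumberField K] [IsPrincipalIdealRing (𝓞 K)] (σ : K →+* ℂ)
    (δ : K) (hK : IsFieldData K σ δ) (a b n : 𝓞 K) (hΔ : 4 * a ^ 3 + 27 * b ^ 2 ≠ 0)
    (c : Ideal (𝓞 K) → ℂ) (hf : IsNewform σ δ n c) (hE : IsNewformOf a b n c)
    (hodd : OddCentralValue σ δ n c)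
    (L : Type) [Field L] [NumberField L] [Algebra K L] (θ : L)
    (hθ : IsCubicField a b θ) (hS : TrivialSelmer a b θ) :
    (∀ (T : Finset (HeightOneSpectrum (𝓞 K))) (χ : 𝓞 K → ℂ), IsCharacter T χ →
      (∀ v ∈ T, Admissible a b v) → ∃ Lf : ℂ → ℂ, IsLFunction n c χ Lf ∧ Lf 1 ≠ 0) ∧
    ∀ (F : Type) [Field F] [NumberField F] [Algebra K F], IsTwoExtension F a b →
      ∀ (j : F →ₐ[K] AlgebraicClosure K) (g : ℕ) (ρ : Gal K →* GL (Fin g) ℤ),
        (∀ s : Gal K, (∀ x, s (j x) = j x) → ρ s = 1) → SelmerZero (curve (a : K) (b : K)) ρ := by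
  have h : K4H55.BI.IQ K σ δ := ⟨hK.quadratic, hK.imaginary, inferInstance, hK.different⟩
  have hf' : K4H55.BI.BF σ δ n c := ⟨hf.level, hf.zero, hf.one, hf.bound, hf.good, hf.bad,
    hf.invariant, hf.fricke⟩
  have hcub : K4H55.BD.Cub K θ := by
    refine ⟨fun p q r h0 => ?_, fun β => ?_⟩
    · obtain ⟨t, ht, hu⟩ := hθ.basis 0
      have h1 := hu (p, q, r) h0.symm
      have h2 := hu (0, 0, 0) (by simp)
      have h3 := h1.trans h2.symm
      simp only [Prod.mk.injEq] at h3
      exact h3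
    · obtain ⟨t, ht, -⟩ := hθ.basis β
      exact ⟨t.1, t.2.1, t.2.2, ht⟩
  have hadm : ∀ v, Admissible a b v → (2 : 𝓞 K) ∉ v.asIdeal ∧
      n ∉ v.asIdeal ∧ ∃ m : ℤ, c v.asIdeal = m ∧ m % 2 = 1 := by
    intro v hv
    have h2 : (2 : 𝓞 K) ∉ v.asIdeal := fun h2 => hv.1 (v.asIdeal.mul_mem_right _ h2)
    refine ⟨h2, (hE v hv.1).1, (Ideal.absNorm v.asIdeal : ℤ) - points a b v, ?_, ?_⟩
    · rw [(hE v hv.1).2]
      push_cast
      ring
    · obtain ⟨k, hk⟩ := K4H55.BD.pv_even (a := a) (b := b) h2 hv.2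
      have hk' : points a b v = 2 * k := hk
      have h6 := K4H55.BM.norm_odd h2
      rw [Nat.odd_iff] at h6
      omega
  refine ⟨fun T χ hχ hT => ?_, fun F _ _ _ hF j g ρ hρ z hz => ?_⟩
  · have hχ' : K4H55.CX.CH T χ := ⟨hχ.one, hχ.mul, hχ.zero, hχ.periodic, hχ.units, hχ.primitive,
      hχ.order⟩
    obtain ⟨ω, hω', hω⟩ := hf.cyclic
    obtain ⟨z, hz, hzo⟩ := hodd
    have hz0 : z ≠ 0 := by
      have := hzo 0 (AddSubgroup.zero_mem _)
      rwa [mul_zero] at this
    obtain ⟨G, τ, x, k, g1, g2, g3, g4, g5, g6⟩ := K4H55.CX.chr_unit h hf' hχ'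
      (fun v hv => hadm v (hT v hv)) hz hω hω' hzo
    refine ⟨G, ⟨g1, g2⟩, K4H55.CX.ne_of_unit (m := 1) (τ := τ) (k := k) g5
      (mul_ne_zero (K4H55.CX.A_ne h) hz0) ?_⟩
    rw [pow_one]
    exact g6
  · have hG := hF.galois
    obtain ⟨k, hk⟩ := hF.degree
    obtain ⟨h1, -, h3⟩ := K4H55.CX.fin_up (F := F) hΔ hcub hθ.root hS hk hF.split
      (fun u hu => by
        by_cases h3 : ∀ X : 𝓞 K, X ^ 3 + a * X + b ∉ (K4H55.BD.low (K := K) u).asIdeal
        · exact Or.inl h3
        · exact Or.inr fun x => hF.unramified _ hu (fun h4 => h3 h4.2) ⟨u, rfl⟩ x)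
    refine L7h10.BKT.sel_zero (V := K4H55.BD.crv (algebraMap K F a) (algebraMap K F b)) ?_ h1.1 h3
      (L7h10.BKT.complex_up hK.quadratic σ hK.imaginary) j hρ hz
    refine ⟨one_ne_zero, ?_, ?_, ?_, ?_, ?_⟩ <;> simp [curve, K4H55.BD.crv]

end Pool.Agent.Results.MP_7c08ba_nt.BianchiTwoPowerTwists
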