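import Pool.Agent.L7h10.BKT.OneF
import Pool.Agent.L7h10.BKT.Gd

/-!
# The Bloch–Kato conjecture for the Hecke characters `ψ χ` of `ℚ(√-3)`, `χ` of `2`-power order

`F = ℚ(√-3)`, `E : y² + y = x³`, and `ψ` is the Hecke character of `E` over `F`: `ψ((α)) = α` for `α ≡ 1 mod 3`.  A prime
of `F` is good if `2` is not a cube modulo this prime.

Theorem.

(a) For every character `χ` of the ideals of `F` of `2`-power order, modulo an ideal with only good prime divisors,
`L(ψ χ, s)` is entire and not zero at the centre `s = 1`.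

(b) For every Galois extension `K/F` of `2`-power degree (abelian or not) in which only good primes ramify, and every
lattice `M = ℤ^g` with an action of `Gal(K/F)`, the Bloch–Kato Selmer group `H¹_f(F, V_2 E ⊗ M)` is zero.

So if `χ` is a ring class character, that is, if `χ(conj I) = χ(I)⁻¹`, then `π = ψ χ` (with `L(π, s) = L(ψ χ, s + 1)`) is
a conjugate self-dual representation of `GL_1` of motivic weight `-1`, and both sides of the formula of Bloch and
Kato for `π` and `p = 2` are zero: the `2`-adic realization of `π` is a summand of `V_2 E ⊗ M ⊗ ℚ̄_2`, where `M = ℤ[χ]` with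
the action of the Galois group by `χ`.

`H¹_f(F, V_2 E ⊗ M)`, `M = ℤ^g`, is the group of the classes of the continuous cocycles of the absolute Galois group
of `F` with values in `V_2(E)^g`, with the action twisted by that of `M`, whose restriction to the completion at every
finite place of `F` is in the image of the Kummer map of the abelian variety `A = E ⊗ M` (`V_2 A = V_2 E ⊗ M`); this is
the condition of Bloch and Kato for an abelian variety.

The proof.  The values are not zero by the congruences modulo the primes above `2` of the starting library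
(`Pool.Agent.Y696.hecke_unit`; there they are used for the characters of a given extension `K/F`, here for all the
characters of ideals); `E(K)` is finite and `H¹_f(K, V_2 E) = 0` by its `2`-descent (`Pool.Agent.Y696.Gn`).  New is the
passage from `K` to `F` (`Pool.Agent.L7h10.BKT.sel_zero`): the cocycles are restricted to `K`, with the local
conditions, where they are coboundaries, and a twisted cocycle that vanishes on the Galois group of `K` has values
in `V_2(E)^{Gal K} = 0`.
-/

set_option autoImplicit false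

open NumberField IsDedekindDomain

namespace Pool.Agent.Results.MP_7c08ba_nt.EisensteinCharacters

open Pool.Agent.TH841.SH.D (Gal)
open Pool.Agent.L7h10.BKT (IsSelT IsCobT)

section field
variable {F : Type} [Field F] [NumberField F]

/-- The prime `v` is good: `2` is not a cube modulo `v`. -/
def Good (v : HeightOneSpectrum (𝓞 F)) : Prop := ∀ x : 𝓞 F, x ^ 3 - 2 ∉ v.asIdeal

/-- `ψ` is the Hecke character of `E : y² + y = x³` over `F = ℚ(√-3)` for the embedding `τ` of `F`: `ψ((α)) = τ(α)` for
`α ≡ 1 mod 3`, and `ψ(I) = 0` if `I` is not prime to `3` (an ideal prime to `3` has exactly one generator `α ≡ 1 mod 3`). -/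
structure IsHecke (τ : F →+* ℂ) (ψ : Ideal (𝓞 F) → ℂ) : Prop where
  principal : ∀ α : 𝓞 F, (3 : 𝓞 F) ∣ α - 1 → ψ (Ideal.span {α}) = τ α
  zero : ∀ I : Ideal (𝓞 F), ¬ IsCoprime I (Ideal.span {3}) → ψ I = 0

/-- `χ` is a character modulo the ideal `𝔪 ≠ 0`, of `2`-power order, as a function on the ideals: it is multiplicative,
zero exactly at the zero ideal and the ideals not prime to `𝔪`, and `χ((α)) = 1` for `α ≡ 1 mod 𝔪`. -/
structure IsCharacter (𝔪 : Ideal (𝓞 F)) (χ : Ideal (𝓞 F) → ℂ) : Prop where
  ne_bot : 𝔪 ≠ ⊥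
  mul : ∀ I J, χ (I * J) = χ I * χ J
  zero : ∀ I, χ I = 0 ↔ (I = ⊥ ∨ ¬ IsCoprime I 𝔪)
  ray : ∀ α : 𝓞 F, α ≠ 0 → α - 1 ∈ 𝔪 → χ (Ideal.span {α}) = 1
  order : ∃ k : ℕ, ∀ I, χ I ≠ 0 → χ I ^ 2 ^ k = 1

/-- `L` is an entire function, and for `Re s > 3/2` it is `L(ψ χ, s)`, the product over all the primes `v` of `F` of
the factors `(1 - ψ(v) χ(v) N(v)^(-s))⁻¹`. -/
def IsLFunction (ψ χ : Ideal (𝓞 F) → ℂ) (L : ℂ → ℂ) : Prop :=
  Differentiable ℂ L ∧ ∀ s : ℂ, 3 / 2 < s.re →
    HasProd (fun v : HeightOneSpectrum (𝓞 F) =>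
      (1 - ψ v.asIdeal * χ v.asIdeal * (Ideal.absNorm v.asIdeal : ℂ) ^ (-s))⁻¹) (L s)

/-- `K/F` is a Galois extension of `2`-power degree in which only good primes ramify. -/
structure IsGoodExtension (F K : Type) [Field F] [NumberField F] [Field K] [NumberField K]
    [Algebra F K] : Prop where
  galois : IsGalois F K
  degree : ∃ k : ℕ, Module.finrank F K = 2 ^ k
  unramified : ∀ (v : HeightOneSpectrum (𝓞 F)) (w : HeightOneSpectrum (𝓞 K)),
    w.asIdeal.LiesOver v.asIdeal → ¬ Good v → v.asIdeal.ramificationIdx' w.asIdeal = 1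

/-- The curve `E : y² + y = x³`. -/
def curve (F : Type) [Field F] : WeierstrassCurve F := ⟨0, 0, 1, 0, 0⟩

/-- The Bloch–Kato Selmer group `H¹_f(F, V_2 E ⊗ M)` is zero, where `M = ℤ^g` with the action `ρ` of the absolute
Galois group of `F`: every continuous cocycle which satisfies the local conditions is a coboundary. -/
def SelmerZero {g : ℕ} (ρ : Gal F →* GL (Fin g) ℤ) : Prop :=
  ∀ z, IsSelT 2 (curve F) ρ z → IsCobT 2 (curve F) ρ z

end field

/-- **Theorem.** Let `F = ℚ(√-3)` and let `ψ` be the Hecke character of `E : y² + y = x³` over `F`.  For all characters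
`χ` of the ideals of `F` of `2`-power order, modulo ideals with only good prime divisors, `L(ψ χ, s)` is entire and not
zero at `s = 1`, and for all the Galois extensions `K/F` of `2`-power degree in which only good primes ramify and for
every lattice `M` with an action of `Gal(K/F)` (that is, an action of the absolute Galois group that is trivial on the
automorphisms which fix the image of `K` under an embedding `j` in the algebraic closure) the Bloch–Kato Selmer
group `H¹_f(F, V_2 E ⊗ M)` is zero. -/
theorem result (F : Type) [Field F] [NumberField F] [IsCyclotomicExtension {3} ℚ F] :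
    (∀ (τ : F →+* ℂ) (ψ : Ideal (𝓞 F) → ℂ), IsHecke τ ψ →
      ∀ (𝔪 : Ideal (𝓞 F)) (χ : Ideal (𝓞 F) → ℂ), IsCharacter 𝔪 χ →
        (∀ v : HeightOneSpectrum (𝓞 F), 𝔪 ≤ v.asIdeal → Good v) →
        ∃ L : ℂ → ℂ, IsLFunction ψ χ L ∧ L 1 ≠ 0) ∧
    ∀ (K : Type) [Field K] [NumberField K] [Algebra F K], IsGoodExtension F K →
      ∀ (j : K →ₐ[F] AlgebraicClosure F) (g : ℕ) (ρ : Gal F →* GL (Fin g) ℤ),
        (∀ s : Gal F, (∀ x, s (j x) = j x) → ρ s = 1) → SelmerZero ρ := by
  refine ⟨fun τ ψ hψ 𝔪 χ hχ hg => ?_, fun K _ _ _ hK j g ρ hρ z hz => ?_⟩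
  · obtain ⟨L, h1, h2, h3⟩ := L7h10.BKT.one_main hψ.principal hψ.zero hχ.ne_bot hχ.mul hχ.zero
      hχ.ray hχ.order hg
    exact ⟨L, ⟨h1, h2⟩, h3⟩
  · have hG := hK.galois
    obtain ⟨k, hk⟩ := hK.degree
    have hU : Y696.Unr F K := by
      intro v₀ v hlo ⟨x, hx⟩
      exact hK.unramified v₀ v hlo fun h => h x hx
    exact L7h10.BKT.gn_sel (Y696.Gn.of (F := F) hk hU) j hρ hz

end Pool.Agent.Results.MP_7c08ba_nt.EisensteinCharacters
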