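import Pool.Agent.L7h10.BKT.Quart
import Pool.Agent.L7h10.BKT.Gd

/-!
# The Bloch–Kato conjecture for the representations of `GL_2` induced from the Hecke characters `ψ_N χ` of quartic
fields `N`, `χ` of `2`-power order

`F = ℚ(√-3)`, `E : y² + y = x³`, and `ψ` is the Hecke character of `E` over `F`: `ψ((α)) = α` for `α ≡ 1 mod 3`.  A prime
of a number field is good if `2` is not a cube modulo this prime.  Let `N/F` be a quadratic extension in which only
good primes ramify, of any class number, and `ψ_N = ψ ∘ N_{N/F}`, the Hecke character of `E` over `N`.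

Theorem.

(a) For every character `χ` of the ideals of `N` of `2`-power order, modulo an ideal with only good prime divisors,
`L(ψ_N χ, s)` is continued to a meromorphic function on the plane, which is analytic and not zero at the centre
`s = 1`.

(b) Let `K/N` be a Galois extension of `2`-power degree (abelian or not) in which only good primes ramify, and let `k`
be a subfield of `K` such that `K/k` is Galois.  For every lattice `M = ℤ^g` with an action of `Gal(K/k)` the Bloch–Kato
Selmer group `H¹_f(k, V_2 E ⊗ M)` is zero.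

Let now `k ≠ F` be an imaginary quadratic field in `N = k F`, for example `k = ℚ(√-7)`, and `π` the representation of
`GL_2` over `k` induced by `ψ_N χ`, so that `L(π, s) = L(ψ_N χ, s + 1)`.  It is regular algebraic and cuspidal, and if `χ`
composed with the complex conjugation is `χ⁻¹` then it is conjugate self-dual of motivic weight `-1`.  Its `2`-adic
realization is a summand of `V_2 E ⊗ M ⊗ ℚ̄_2`, where `M` is the lattice induced from `ℤ[χ]`, with an action of `Gal(K/k)`
for an abelian extension `K` of `N`.  So both sides of the formula of Bloch and Kato for `π` and `p = 2` are zero.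

`H¹_f(k, V_2 E ⊗ M)`, `M = ℤ^g`, is the group of the classes of the continuous cocycles of the absolute Galois group
of `k` with values in `V_2(E)^g`, with the action twisted by that of `M`, whose restriction to the completion at every
finite place of `k` is in the image of the Kummer map of the abelian variety `A = E ⊗ M` (`V_2 A = V_2 E ⊗ M`); this is
the condition of Bloch and Kato for an abelian variety.

The proof.  The values are not zero by the congruences modulo the primes above `2` of the starting library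
(`Pool.Agent.R430.AI_val`, over quartic fields of any class number; there for the `L`-function of `E` over `K`), and the
modulus is changed here; `E(K)` is finite and `H¹_f(K, V_2 E) = 0` by its `2`-descent (`Pool.Agent.Y696.Gn`).  New is
the passage from `K` to `k` (`Pool.Agent.L7h10.BKT.sel_zero`): the cocycles are restricted to `K`, with the local
conditions, where they are coboundaries, and a twisted cocycle that vanishes on the Galois group of `K` has values
in `V_2(E)^{Gal K} = 0`.
-/

set_option autoImplicit false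

open NumberField IsDedekindDomain

namespace Pool.Agent.Results.MP_7c08ba_nt.QuarticInductions

open Pool.Agent.TH841.SH.D (Gal)
open Pool.Agent.L7h10.BKT (IsSelT IsCobT)

section field
variable {F : Type} [Field F] [NumberField F]

/-- The prime `v` is good: `2` is not a cube modulo `v`. -/
def Good (v : HeightOneSpectrum (𝓞 F)) : Prop := ∀ x : 𝓞 F, x ^ 3 - 2 ∉ v.asIdeal

/-- `ψ` is the Hecke character of `E : y² + y = x³` over `F = ℚ(√-3)` for the embedding `τ` of `F`: `ψ((α)) = τ(α)` for
`α ≡ 1 mod 3`, and `ψ(I) = 0` if `I` is not prime to `3` (an ideal prime to `3` has exactly one generator `α ≡ 1 mod 3`). -/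
structure IsHecke (τ : F →+* ℂ) (ψ : Ideal (𝓞 F) → ℂ) : Prop where
  principal : ∀ α : 𝓞 F, (3 : 𝓞 F) ∣ α - 1 → ψ (Ideal.span {α}) = τ α
  zero : ∀ I : Ideal (𝓞 F), ¬ IsCoprime I (Ideal.span {3}) → ψ I = 0

/-- `χ` is a character modulo the ideal `𝔪 ≠ 0`, of `2`-power order, as a function on the ideals: it is multiplicative,
zero exactly at the zero ideal and the ideals not prime to `𝔪`, and `χ((α)) = 1` for `α ≡ 1 mod 𝔪`. -/
structure IsCharacter (𝔪 : Ideal (𝓞 F)) (χ : Ideal (𝓞 F) → ℂ) : Prop where
  ne_bot : 𝔪 ≠ ⊥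
  mul : ∀ I J, χ (I * J) = χ I * χ J
  zero : ∀ I, χ I = 0 ↔ (I = ⊥ ∨ ¬ IsCoprime I 𝔪)
  ray : ∀ α : 𝓞 F, α ≠ 0 → α - 1 ∈ 𝔪 → χ (Ideal.span {α}) = 1
  order : ∃ k : ℕ, ∀ I, χ I ≠ 0 → χ I ^ 2 ^ k = 1

/-- `L` is a meromorphic function on the plane, and for `Re s > 3/2` it is `L(ψ_N χ, s)`, the product over all the
primes `v` of `N` of the factors `(1 - ψ_N(v) χ(v) N(v)^(-s))⁻¹`, where `ψ_N(v) = ψ(N_{N/F}(v))` is `ψ(v ∩ F)^f`, `f` being the
residue degree of `v` over `F`. -/
def IsLFunction {N : Type} [Field N] [NumberField N] [Algebra F N] (ψ : Ideal (𝓞 F) → ℂ)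
    (χ : Ideal (𝓞 N) → ℂ) (L : ℂ → ℂ) : Prop :=
  MeromorphicOn L Set.univ ∧ ∀ s : ℂ, 3 / 2 < s.re →
    HasProd (fun v : HeightOneSpectrum (𝓞 N) =>
      (1 - ψ (v.asIdeal.under (𝓞 F)) ^ v.asIdeal.inertiaDeg (𝓞 F) * χ v.asIdeal *
        (Ideal.absNorm v.asIdeal : ℂ) ^ (-s))⁻¹) (L s)

/-- Only good primes ramify in `K/F`: if `σ ≠ 1` lies in the inertia group of the prime `w` of `K`, then the prime of `F`
below `w` is good. -/
def OnlyGoodRamify (F K : Type) [Field F] [NumberField F] [Field K] [NumberField K]
    [Algebra F K] : Prop :=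
  ∀ (w : HeightOneSpectrum (𝓞 K)) (σ : Gal(K/F)), (∀ x : 𝓞 K, σ • x - x ∈ w.asIdeal) → σ ≠ 1 →
    ∀ x : 𝓞 F, x ^ 3 - 2 ∉ w.asIdeal.under (𝓞 F)

/-- The curve `E : y² + y = x³`. -/
def curve (k : Type) [Field k] : WeierstrassCurve k := ⟨0, 0, 1, 0, 0⟩

/-- The Bloch–Kato Selmer group `H¹_f(k, V_2 E ⊗ M)` is zero, where `M = ℤ^g` with the action `ρ` of the absolute
Galois group of `k`: every continuous cocycle which satisfies the local conditions is a coboundary. -/
def SelmerZero {k : Type} [Field k] [NumberField k] {g : ℕ} (ρ : Gal k →* GL (Fin g) ℤ) : Prop :=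
  ∀ z, IsSelT 2 (curve k) ρ z → IsCobT 2 (curve k) ρ z

end field

/-- **Theorem.** Let `F = ℚ(√-3)`, let `ψ` be the Hecke character of `E : y² + y = x³` over `F` and `N/F` a quadratic
extension in which only good primes ramify.  For all characters `χ` of the ideals of `N` of `2`-power order, modulo
ideals with only good prime divisors, `L(ψ_N χ, s)` is continued to a meromorphic function which is analytic and not
zero at `s = 1`.  For all Galois extensions `K/N` of `2`-power degree in which only good primes ramify, all subfields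
`k` of `K` such that `K/k` is Galois and every lattice `M` with an action of `Gal(K/k)` (that is, an action of the
absolute Galois group of `k` that is trivial on the automorphisms which fix the image of `K` under an embedding `j` in
the algebraic closure) the Bloch–Kato Selmer group `H¹_f(k, V_2 E ⊗ M)` is zero. -/
theorem result (F N : Type) [Field F] [NumberField F] [IsCyclotomicExtension {3} ℚ F]
    [Field N] [NumberField N] [Algebra F N] (h2 : Module.finrank F N = 2)
    (hN : OnlyGoodRamify F N) :
    (∀ (τ : F →+* ℂ) (ψ : Ideal (𝓞 F) → ℂ), IsHecke τ ψ →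
      ∀ (𝔪 : Ideal (𝓞 N)) (χ : Ideal (𝓞 N) → ℂ), IsCharacter 𝔪 χ →
        (∀ v : HeightOneSpectrum (𝓞 N), 𝔪 ≤ v.asIdeal → Good v) →
        ∃ L : ℂ → ℂ, IsLFunction ψ χ L ∧ AnalyticAt ℂ L 1 ∧ L 1 ≠ 0) ∧
    ∀ (K k : Type) [Field K] [NumberField K] [Algebra N K] [Field k] [NumberField k] [Algebra k K],
      IsGalois N K → (∃ r : ℕ, Module.finrank N K = 2 ^ r) → OnlyGoodRamify N K → IsGalois k K →
      ∀ (j : K →ₐ[k] AlgebraicClosure k) (g : ℕ) (ρ : Gal k →* GL (Fin g) ℤ),
        (∀ s : Gal k, (∀ x, s (j x) = j x) → ρ s = 1) → SelmerZero ρ := by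
  refine ⟨fun τ ψ hψ 𝔪 χ hχ hg => ?_,
    fun K k _ _ _ _ _ _ hG ⟨r, hr⟩ hK hk j g ρ hρ z hz => ?_⟩
  · obtain ⟨L, h1, h3, h4, h5⟩ := L7h10.BKT.quart_main h2 hN hψ.principal hψ.zero hχ.ne_bot hχ.mul
      hχ.zero hχ.ray hχ.order hg
    exact ⟨L, ⟨h1, h3⟩, h4, h5⟩
  · exact L7h10.BKT.gn_sel (L7h10.BKT.gn_quart h2 hN hr hK) j hρ hz

end Pool.Agent.Results.MP_7c08ba_nt.QuarticInductions
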